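import Pool.Agent.Work.MP_8d2cba_co_helper39.OrV

/-! MP_8d2cba_co block OrP (helper39). -/

set_option autoImplicit false
set_option linter.unusedSectionVars false

namespace Pool.OM.helper39

open Finset

section small
variable {G : Type} [Group G]

theorem freshIdx [DecidableEq G] {k : ℕ} {FV FC : Finset G} {s t τ v c : G}
    (h3 : k = 3 → t = s) (hvs : v ≠ s) (hv : v ∉ FV) (hs : s ∉ FV) (hj : (jl' k t τ).Nodup)
    (hjx : ∀ x ∈ jl' k t τ, x ∉ FV ∧ x ≠ s ∧ x ≠ v)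
    (hc : (c ::ₘ tl k (s, t, τ)).Nodup) (hcx : ∀ x ∈ c ::ₘ tl k (s, t, τ), x ∉ FC ∧ x ≠ 1) :
    Fresh k FV FC (⟨{(s, t, τ)}, {v}, {c}⟩ : Gad G) := by
  constructor
  · intro hk i hi
    simp only [Multiset.mem_singleton] at hi
    rw [hi]; exact h3 hk
  · simp only [Gad.verts, Multiset.singleton_bind, jl_eq]
    rw [Multiset.singleton_add, Multiset.nodup_cons, Multiset.nodup_cons, Multiset.mem_cons,
      not_or]
    exact ⟨⟨hvs, fun h => (hjx _ h).2.2 rfl⟩, fun h => (hjx _ h).2.1 rfl, hj⟩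
  · intro x hx
    simp only [Gad.verts, Multiset.singleton_bind, jl_eq, Multiset.mem_add,
      Multiset.mem_singleton, Multiset.mem_cons] at hx
    rcases hx with rfl | rfl | hx
    · exact hv
    · exact hs
    · exact (hjx _ hx).1
  · simpa only [Gad.cols, Multiset.singleton_bind, Multiset.singleton_add] using hc
  · intro x hx
    simp only [Gad.cols, Multiset.singleton_bind, Multiset.singleton_add] at hx
    exact (hcx x hx).1
  · intro x hx
    simp only [Gad.cols, Multiset.singleton_bind, Multiset.singleton_add] at hx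
    exact (hcx x hx).2

theorem freshPlain [DecidableEq G] {k : ℕ} {FV FC : Finset G} {V C : Multiset G} (hV : V.Nodup)
    (hVx : ∀ x ∈ V, x ∉ FV) (hC : C.Nodup) (hCx : ∀ x ∈ C, x ∉ FC ∧ x ≠ 1) :
    Fresh k FV FC (⟨0, V, C⟩ : Gad G) := by
  constructor
  · intro _ i hi; simp at hi
  · simpa [Gad.verts] using hV
  · intro x hx; exact hVx x (by simpa [Gad.verts] using hx)
  · simpa [Gad.cols] using hC
  · intro x hx; exact (hCx x (by simpa [Gad.cols] using hx)).1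
  · intro x hx; exact (hCx x (by simpa [Gad.cols] using hx)).2

theorem stage [Fintype G] [DecidableEq G] {B k Ki : ℕ} {FV FC : Finset G}
    (hn : 40 * B * B * (FV.card + FC.card + 1) ≤ Fintype.card G) (hB : 1 ≤ B) (F : Gad G)
    (hF : F.size ≤ 6 * B) (hKi : Ki ≤ B) :
    Ki * ((FV ∪ F.vf k).card + (FC ∪ F.cf k).card + 1) ≤ Fintype.card G := by
  have v1 : (FV ∪ F.vf k).card ≤ FV.card + 3 * (6 * B) :=
    (card_union_le _ _).trans (by have := F.card_vf_le k; omega)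
  have c1 : (FC ∪ F.cf k).card ≤ FC.card + 2 * (6 * B) :=
    (card_union_le _ _).trans (by have := F.card_cf_le k; omega)
  refine le_trans ?_ hn
  calc Ki * ((FV ∪ F.vf k).card + (FC ∪ F.cf k).card + 1)
      ≤ B * (FV.card + 3 * (6 * B) + (FC.card + 2 * (6 * B)) + 1) :=
        Nat.mul_le_mul hKi (by omega)
    _ ≤ B * (40 * B * (FV.card + FC.card + 1)) := by
        apply Nat.mul_le_mul_left
        nlinarith [Nat.zero_le (B * FV.card), Nat.zero_le (B * FC.card)]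
    _ = _ := by ring

end small

/-- choice of `u` -/
theorem picku {G : Type} [Group G] [Fintype G] [DecidableEq G] (K : ℕ) (FV FC : Finset G)
    (γ s₁ s₂ P X h₁ c : G)
    (hn : 2 * FV.card + 4 * FC.card + 4 * K + 5 + rt γ + rt h₁ + rt (X * γ) + rt (X * h₁) <
      Fintype.card G) :
    ∃ u : G, s₁ * (P * u) ∉ FV ∧ s₂ * (X * u) ∉ FV ∧ u ∉ FC ∧ u⁻¹ * γ ∉ FC ∧ X * u ∉ FC ∧
      u⁻¹ * h₁ ∉ FC ∧ u ≠ 1 ∧ u⁻¹ * γ ≠ 1 ∧ X * u ≠ 1 ∧ u⁻¹ * h₁ ≠ 1 ∧
      u ≠ u⁻¹ * γ ∧ u ≠ u⁻¹ * h₁ ∧ u⁻¹ * γ ≠ X * u ∧ X * u ≠ u⁻¹ * h₁ ∧ u ≠ c ∧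
      K * rt u ≤ Fintype.card G ∧ K * rt (u⁻¹ * γ) ≤ Fintype.card G ∧
      K * rt (X * u) ≤ Fintype.card G ∧ K * rt (u⁻¹ * h₁) ≤ Fintype.card G := by
  have i1 : Function.Injective fun x : G => s₁ * (P * x) := fun x y h => by simpa using h
  have i2 : Function.Injective fun x : G => s₂ * (X * x) := fun x y h => by simpa using h
  have hA := ((few_mem FV (fun x => s₁ * (P * x)) i1).or (few_mem FV (fun x => s₂ * (X * x)) i2))
  have hB := (((few_mem FC (fun x => x) inj_id').or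
    (few_mem FC (fun x => x⁻¹ * γ) (inj_inv_mul γ))).or
    ((few_mem FC (fun x => X * x) (inj_mul_left' X)).or
    (few_mem FC (fun x => x⁻¹ * h₁) (inj_inv_mul h₁))))
  have hC := (((few_eq (1 : G) (fun x => x) inj_id').or
    (few_eq (1 : G) (fun x => x⁻¹ * γ) (inj_inv_mul γ))).or
    ((few_eq (1 : G) (fun x => X * x) (inj_mul_left' X)).or
    (few_eq (1 : G) (fun x => x⁻¹ * h₁) (inj_inv_mul h₁))))
  have hD := (((few_sq γ (fun x => x) inj_id').or (few_sq h₁ (fun x => x) inj_id')).or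
    ((few_sq (X * γ) (fun x => X * x) (inj_mul_left' X)).or
    (few_sq (X * h₁) (fun x => X * x) (inj_mul_left' X))))
  have hE := (((few_bad K (fun x : G => x) inj_id').or
    (few_bad K (fun x => x⁻¹ * γ) (inj_inv_mul γ))).or
    ((few_bad K (fun x => X * x) (inj_mul_left' X)).or
    (few_bad K (fun x => x⁻¹ * h₁) (inj_inv_mul h₁))))
  have hF := few_eq c (fun x : G => x) inj_id'
  obtain ⟨u, hu⟩ := ((((hA.or hB).or hC).or (hD.or hE)).or hF).ex (by omega)
  push Not at hu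
  obtain ⟨⟨⟨⟨⟨a1, a2⟩, ⟨b1, b2⟩, ⟨b3, b4⟩⟩, ⟨c1, c2⟩, ⟨c3, c4⟩⟩, ⟨⟨d1, d2⟩, ⟨d3, d4⟩⟩,
    ⟨e1, e2⟩, ⟨e3, e4⟩⟩, f1⟩ := hu
  refine ⟨u, a1, a2, b1, b2, b3, b4, c1, c2, c3, c4, ?_, ?_, ?_, ?_, f1, e1, e2, e3, e4⟩
  · intro h
    apply d1
    nth_rewrite 2 [h]
    group
  · intro h
    apply d2
    nth_rewrite 2 [h]
    group
  · intro h
    apply d3
    nth_rewrite 2 [← h]
    group
  · intro h
    apply d4
    nth_rewrite 2 [h]
    group

theorem stepP (hPX : Stmt_PX) (hW : Stmt_W) : ∃ K : ℕ, ∀ (G : Type) [Group G] [Fintype G]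
    [DecidableEq G] (k : ℕ) (FV FC : Finset G), 3 ≤ k → k ∣ Fintype.card G - 1 →
    K * (FV.card + FC.card + 1) ≤ Fintype.card G → ∀ γ s₁ s₂ t₁ t₂ P X b y₁ y₂ h₁ : G,
    (s₁ * P)⁻¹ * t₁ = h₁ → b ∈ FC → X ≠ 1 → h₁ ≠ γ → s₁ * P ≠ s₂ * X →
    b ≠ 1 → b⁻¹ * (X * h₁) ≠ 1 → K * rt b ≤ Fintype.card G →
    K * rt (b⁻¹ * (X * h₁)) ≤ Fintype.card G → K * rt γ ≤ Fintype.card G →
    K * rt h₁ ≤ Fintype.card G → K * rt (X * γ) ≤ Fintype.card G →
    K * rt (X * h₁) ≤ Fintype.card G → ∀ c : G, c ≠ 1 → c⁻¹ * γ ≠ 1 →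
    K * rt c ≤ Fintype.card G → K * rt (c⁻¹ * γ) ≤ Fintype.card G →
    ∃ E : Gad G, E.size ≤ K ∧ Fresh k FV FC E ∧ MS E.idx E.V E.C ∧
      MS ({(s₁, t₁, 3), (s₂, t₂, 3)} + E.idx) (0 + {s₁ * P, s₂ * (X * γ), y₁, y₂} + E.V)
        (pr γ c + {P, (s₂ * (X * γ))⁻¹ * t₂, b, b⁻¹ * (X * h₁)} + E.C) := by
  obtain ⟨K₁, hPX⟩ := hPX
  obtain ⟨K₂, hW⟩ := hW
  refine ⟨40 * (K₁ + K₂ + 1) * (K₁ + K₂ + 1), ?_⟩
  intro G _ _ _ k FV FC hk hkn hn γ s₁ s₂ t₁ t₂ P X b y₁ y₂ h₁ hh hb hX hhγ hsP hb1 hbδ1 hrb hrbδ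
    hrγ hrh hrXγ hrδ c hc1 hcγ1 hrc hrcγ
  set B := K₁ + K₂ + 1 with hB
  have hB1 : 1 ≤ B := by omega
  have hBB : B ≤ B * B := Nat.le_mul_of_pos_left B (by omega)
  have hn1 : 1 ≤ Fintype.card G := Fintype.card_pos
  have hK : K₁ ≤ 40 * B * B := by nlinarith
  have h40 : 40 ≤ 40 * B * B := by nlinarith
  have hr : ∀ x : G, 40 * B * B * rt x ≤ Fintype.card G → 40 * rt x ≤ Fintype.card G ∧
      K₁ * rt x ≤ Fintype.card G := fun x hx =>
    ⟨le_trans (Nat.mul_le_mul_right _ h40) hx, le_trans (Nat.mul_le_mul_right _ hK) hx⟩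
  have e1 : 40 * B * (FV.card + FC.card + 1) ≤ Fintype.card G := by
    refine le_trans ?_ hn
    rw [show 40 * B * B * (FV.card + FC.card + 1) = B * (40 * B * (FV.card + FC.card + 1)) by ring]
    exact Nat.le_mul_of_pos_left _ (by omega)
  have e2 : 40 * (FV.card + FC.card + 1) ≤ Fintype.card G := by
    refine le_trans (Nat.mul_le_mul_right _ ?_) e1
    omega
  have e3 : 40 * B ≤ Fintype.card G := by
    refine le_trans ?_ e1
    nlinarith [Nat.zero_le (B * FV.card), Nat.zero_le (B * FC.card)]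
  have r1 := (hr _ hrγ).1
  have r2 := (hr _ hrh).1
  have r3 := (hr _ hrXγ).1
  have r4 := (hr _ hrδ).1
  obtain ⟨u, u1, u2, u3, u4, u5, u6, u7, u8, u9, u10, u11, u12, u13, u14, u15, u16, u17, u18,
    u19⟩ := picku K₁ FV FC γ s₁ s₂ P X h₁ c (by omega)
  have g1 : u ≠ X * u := fun h => hX (by simpa using h.symm)
  have g2 : u⁻¹ * γ ≠ u⁻¹ * h₁ := fun h => hhγ (by simpa using h.symm)
  set E₀ : Gad G := ⟨0, {s₁ * (P * u), s₂ * (X * u)}, {u, u⁻¹ * γ, X * u, u⁻¹ * h₁}⟩ with hE₀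
  have hE₀f : Fresh k FV FC E₀ := by
    apply freshPlain
    · simp only [Multiset.insert_eq_cons, Multiset.nodup_cons, Multiset.mem_singleton,
        Multiset.nodup_singleton, and_true]
      intro h
      apply hsP
      rw [← mul_assoc, ← mul_assoc] at h
      exact mul_right_cancel h
    · intro x hx
      simp only [Multiset.insert_eq_cons, Multiset.mem_cons, Multiset.mem_singleton] at hx
      rcases hx with rfl | rfl
      · exact u1
      · exact u2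
    · simp only [Multiset.insert_eq_cons, Multiset.nodup_cons, Multiset.mem_singleton,
        Multiset.nodup_singleton, and_true, Multiset.mem_cons, not_or]
      exact ⟨⟨u11, g1, u12⟩, ⟨u13, g2⟩, u14⟩
    · intro x hx
      simp only [Multiset.insert_eq_cons, Multiset.mem_cons, Multiset.mem_singleton] at hx
      rcases hx with rfl | rfl | rfl | rfl
      · exact ⟨u3, u7⟩
      · exact ⟨u4, u8⟩
      · exact ⟨u5, u9⟩
      · exact ⟨u6, u10⟩
  have hE₀s : E₀.size = 6 := by simp [hE₀, Gad.size]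
  have hE₀i : E₀.idx = 0 := by simp [hE₀, Gad.idx]
  -- first PX
  obtain ⟨P₁, P1, P2, P3, P4⟩ := hPX G k (FV ∪ E₀.vf k) (FC ∪ E₀.cf k) hk hkn
    (stage hn hB1 E₀ (by omega) (by omega))
    c (c⁻¹ * γ) u (u⁻¹ * γ) (by group) (fun h => u15 h.symm) hc1 hcγ1 u7 u8
    (hr _ hrc).2 (hr _ hrcγ).2 u16 u17
  have hE₁f : Fresh k FV FC (E₀.add P₁) := hE₀f.add P2
  have hE₁s : (E₀.add P₁).size ≤ 6 + K₁ := by rw [Gad.add_size, hE₀s]; omega
  -- second PX
  obtain ⟨P₂, Q1, Q2, Q3, Q4⟩ := hPX G k (FV ∪ (E₀.add P₁).vf k) (FC ∪ (E₀.add P₁).cf k) hk hkn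
    (stage hn hB1 _ (by omega) (by omega))
    b (b⁻¹ * (X * h₁)) (X * u) (u⁻¹ * h₁) (by group) (fun h => u5 (h ▸ hb)) hb1 hbδ1 u9 u10
    (hr _ hrb).2 (hr _ hrbδ).2 u18 u19
  have hE₂f : Fresh k FV FC ((E₀.add P₁).add P₂) := hE₁f.add Q2
  have hE₂s : ((E₀.add P₁).add P₂).size ≤ 6 + K₁ + K₁ := by rw [Gad.add_size]; omega
  -- first W
  obtain ⟨W₁, W1, W2, W3, W4⟩ := hW G k (FV ∪ ((E₀.add P₁).add P₂).vf k)
    (FC ∪ ((E₀.add P₁).add P₂).cf k) hk hkn
    (stage hn hB1 _ (by omega) (by omega)) y₁ (s₁ * (P * u))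
  have hE₃f : Fresh k FV FC (((E₀.add P₁).add P₂).add W₁) := hE₂f.add W2
  have hE₃s : (((E₀.add P₁).add P₂).add W₁).size ≤ 6 + K₁ + K₁ + K₂ := by
    rw [Gad.add_size]; omega
  obtain ⟨W₂, W5, W6, W7, W8⟩ := hW G k (FV ∪ (((E₀.add P₁).add P₂).add W₁).vf k)
    (FC ∪ (((E₀.add P₁).add P₂).add W₁).cf k) hk hkn
    (stage hn hB1 _ (by omega) (by omega)) y₂ (s₂ * (X * u))
  refine ⟨(((E₀.add P₁).add P₂).add W₁).add W₂, ?_, hE₃f.add W6, ?_, ?_⟩
  · rw [Gad.add_size]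
    nlinarith
  · have := ((P4.add Q4).add W4).add W8
    convert this using 1
    · simp only [Gad.add_idx, hE₀i, zero_add]
    · simp only [Gad.add_V, hE₀, ← Multiset.singleton_add, Multiset.insert_eq_cons]; abel
    · simp only [Gad.add_C, hE₀, ← Multiset.singleton_add, Multiset.insert_eq_cons]; abel
  · have p1 := MS.three s₁ t₁ (s₁ * P) (s₁ * (P * u))
    have p2 := MS.three s₂ t₂ (s₂ * (X * u)) (s₂ * (X * γ))
    have f1 : s₁⁻¹ * (s₁ * P) = P := by group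
    have f2 : (s₁ * P)⁻¹ * (s₁ * (P * u)) = u := by group
    have f3 : (s₁ * (P * u))⁻¹ * t₁ = u⁻¹ * h₁ := by rw [← hh]; group
    have f4 : s₂⁻¹ * (s₂ * (X * u)) = X * u := by group
    have f5 : (s₂ * (X * u))⁻¹ * (s₂ * (X * γ)) = u⁻¹ * γ := by group
    rw [f1, f2, f3] at p1
    rw [f4, f5] at p2
    have := ((((p1.add p2).add P3).add Q3).add W3).add W7
    convert this using 1
    · simp only [Gad.add_idx, hE₀i, ← Multiset.singleton_add, Multiset.insert_eq_cons]; abel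
    · simp only [Gad.add_V, hE₀, ← Multiset.singleton_add, Multiset.insert_eq_cons]; abel
    · simp only [Gad.add_C, hE₀, pr, ← Multiset.singleton_add, Multiset.insert_eq_cons]; abel

theorem stmt_OrP (hPX : Stmt_PX) (hW : Stmt_W) (hCL : Stmt_CLOSE) : Stmt_OrP := by
  obtain ⟨K₁, hstep⟩ := stepP hPX hW
  obtain ⟨K₂, hcl⟩ := closeOne hCL
  refine ⟨1000 * (K₁ + K₂ + 1) * (K₁ + K₂ + 1) * (5 * K₁ + 1), ?_⟩
  intro G _ _ _ k γ FV FC Z hk hkn hγ hZ hn
  set B := K₁ + K₂ + 1 with hB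
  have hB1 : 1 ≤ B := by omega
  have hKB : K₁ ≤ B := by omega
  set A := FV.card + FC.card + Z.card + 1 with hA
  have hK : K₁ ≤ 1000 * B * B * (5 * K₁ + 1) := by
    calc K₁ ≤ 1000 * B := by omega
      _ ≤ 1000 * B * B := Nat.le_mul_of_pos_right _ (by omega)
      _ ≤ _ := Nat.le_mul_of_pos_right _ (by omega)
  have e1 : 1000 * B * B * A ≤ Fintype.card G := by
    refine le_trans ?_ hn
    apply Nat.mul_le_mul_right
    exact Nat.le_mul_of_pos_right _ (by omega)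
  have e1' : 1000 * B * A ≤ Fintype.card G := by
    refine le_trans ?_ e1
    apply Nat.mul_le_mul_right
    exact Nat.le_mul_of_pos_right _ (by omega)
  have e2 : 1000 * (K₁ * (5 * K₁ + 1) * A) ≤ Fintype.card G := by
    have h1 : 1000 * K₁ ≤ 1000 * B * B :=
      le_trans (Nat.mul_le_mul_left 1000 hKB) (Nat.le_mul_of_pos_right _ hB1)
    have h2 : 1000 * K₁ * ((5 * K₁ + 1) * A) ≤ 1000 * B * B * ((5 * K₁ + 1) * A) :=
      Nat.mul_le_mul_right _ h1
    calc 1000 * (K₁ * (5 * K₁ + 1) * A) = 1000 * K₁ * ((5 * K₁ + 1) * A) := by ring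
      _ ≤ 1000 * B * B * ((5 * K₁ + 1) * A) := h2
      _ = 1000 * B * B * (5 * K₁ + 1) * A := by ring
      _ ≤ _ := hn
  have eB : 1000 * B ≤ Fintype.card G := le_trans (by nlinarith) e1'
  have eA : 1000 * A ≤ Fintype.card G := le_trans (by nlinarith) e1'
  -- choice of `P`
  obtain ⟨P, hP⟩ := (((few_eq (1 : G) (fun x => x) inj_id').or
    (few_mem FC (fun x : G => x) inj_id')).or
    ((few_bad (20 * B) (fun x : G => x⁻¹) inv_injective).or
    (few_eq γ (fun x : G => x⁻¹) inv_injective))).ex (by omega)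
  push Not at hP
  obtain ⟨⟨P1, P2⟩, P3, P4⟩ := hP
  -- choice of `s₁`
  obtain ⟨s₁, hs⟩ := ((few_mem FV (fun x : G => x) inj_id').or
    (few_mem FV (fun x : G => x * P) (mul_left_injective P))).ex (by omega)
  push Not at hs
  obtain ⟨s1, s2⟩ := hs
  have hsne : s₁ * P ≠ s₁ := fun h => P1 (by simpa using h)
  -- closing 1
  obtain ⟨t₁, τ₁, c1, c2, c3, c4, c5, c6, c7⟩ : ∃ t τ : G, (k = 3 → t = s₁) ∧
      (jl' k t τ).Nodup ∧ (∀ x ∈ jl' k t τ, x ∉ FV ∧ x ≠ s₁ ∧ x ≠ s₁ * P) ∧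
      (P ::ₘ tl k (s₁, t, τ)).Nodup ∧ (∀ c ∈ P ::ₘ tl k (s₁, t, τ), c ∉ FC ∧ c ≠ 1) ∧
      20 * B * rt ((s₁ * P)⁻¹ * t) ≤ Fintype.card G ∧ (s₁ * P)⁻¹ * t ≠ γ := by
    by_cases hk3 : k = 3
    · subst hk3
      have : (s₁ * P)⁻¹ * s₁ = P⁻¹ := by group
      refine ⟨s₁, s₁, fun _ => rfl, by simp [jl'], by simp [jl'], by simp [tl], ?_, ?_, ?_⟩
      · intro c hc
        have : c = P := by simpa [tl] using hc
        rw [this]; exact ⟨P2, P1⟩
      · rw [this]; exact P3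
      · rw [this]; exact P4
    · obtain ⟨t, τ, a1, a2, a3, a4, a5⟩ := hcl G k (insert s₁ (insert (s₁ * P) FV))
        (insert P (insert γ (FC ∪ univ.filter fun c : G => Fintype.card G < 20 * B * rt c)))
        hk hkn
        (by
          have h1 : (insert s₁ (insert (s₁ * P) FV)).card ≤ FV.card + 2 :=
            (card_insert_le _ _).trans (Nat.add_le_add_right (card_insert_le _ _) 1)
          have h2 : (insert P (insert γ (FC ∪
              univ.filter fun c : G => Fintype.card G < 20 * B * rt c))).card ≤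
              FC.card + 20 * B + 2 :=
            (card_insert_le _ _).trans (Nat.add_le_add_right ((card_insert_le _ _).trans
              (Nat.add_le_add_right ((card_union_le _ _).trans
                (Nat.add_le_add_left (card_badrt (20 * B)) _)) 1)) 1)
          refine le_trans (Nat.mul_le_mul (show K₂ ≤ B by omega)
            (show _ ≤ 30 * B * A by nlinarith)) (le_trans (by nlinarith) e1))
        s₁ (s₁ * P) (fun h => absurd h hk3)
      refine ⟨t, τ, a1, a2, ?_, ?_, ?_, ?_, ?_⟩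
      · intro x hx
        have := a3 x hx
        simp only [mem_insert, not_or] at this
        exact ⟨this.2.2, this.1, this.2.1⟩
      · rw [Multiset.nodup_cons]
        refine ⟨fun h => ?_, (Multiset.nodup_cons.1 a4).2⟩
        have := (a5 P (Multiset.mem_cons_of_mem h)).1
        simp at this
      · intro c hc
        rcases Multiset.mem_cons.1 hc with rfl | hc
        · exact ⟨P2, P1⟩
        · have := a5 c (Multiset.mem_cons_of_mem hc)
          simp only [mem_insert, mem_union, not_or] at this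
          exact ⟨this.1.2.2.1, this.2⟩
      · have := (a5 _ (Multiset.mem_cons_self _ _)).1
        simp only [mem_insert, mem_union, mem_filter, mem_univ, true_and, not_or, not_lt] at this
        exact this.2.2.2
      · intro h
        have := (a5 _ (Multiset.mem_cons_self _ _)).1
        simp only [mem_insert, not_or] at this
        exact this.2.1 h
  set h₁ := (s₁ * P)⁻¹ * t₁ with hh₁
  set G₁ : Gad G := ⟨{(s₁, t₁, τ₁)}, {s₁ * P}, {P}⟩ with hG₁
  have G₁f : Fresh k FV FC G₁ := freshIdx c1 hsne s2 s1 c2 c3 c4 c5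
  have G₁s : G₁.size = 3 := by simp [hG₁, Gad.size]
  have v1 : (FV ∪ G₁.vf k).card ≤ FV.card + 9 :=
    (card_union_le _ _).trans (by have := G₁.card_vf_le k; omega)
  have w1 : (FC ∪ G₁.cf k).card ≤ FC.card + 6 :=
    (card_union_le _ _).trans (by have := G₁.card_cf_le k; omega)
  -- choice of `X`
  have iXγ : Function.Injective fun x : G => (x * γ)⁻¹ := fun x y h => by simpa using h
  obtain ⟨X, hX⟩ := ((((few_eq (1 : G) (fun x => x) inj_id').or
    (few_eq (1 : G) (fun x => x * γ) (mul_left_injective γ))).or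
    ((few_bad (20 * B) (fun x : G => x * γ) (mul_left_injective γ)).or
    (few_bad (20 * B) (fun x : G => x * h₁) (mul_left_injective h₁)))).or
    (few_mem (FC ∪ G₁.cf k) (fun x => (x * γ)⁻¹) iXγ)).ex (by omega)
  push Not at hX
  obtain ⟨⟨⟨X1, X2⟩, X3, X4⟩, X5⟩ := hX
  -- choice of `s₂`
  obtain ⟨s₂, hs₂⟩ := (((few_mem (FV ∪ G₁.vf k) (fun x : G => x) inj_id').or
    (few_mem (FV ∪ G₁.vf k) (fun x : G => x * (X * γ)) (mul_left_injective _))).or
    (few_eq (s₁ * P) (fun x : G => x * X) (mul_left_injective X))).ex (by omega)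
  push Not at hs₂
  obtain ⟨⟨s3, s4⟩, s5⟩ := hs₂
  have hsne2 : s₂ * (X * γ) ≠ s₂ := fun h => X2 (by simpa using h)
  -- closing 2
  have hcard2 : (insert s₂ (insert (s₂ * (X * γ)) (FV ∪ G₁.vf k))).card ≤ FV.card + 11 :=
    (card_insert_le _ _).trans (Nat.add_le_add_right ((card_insert_le _ _).trans
      (Nat.add_le_add_right v1 1)) 1)
  obtain ⟨t₂, τ₂, d1, d2, d3, d4, d5⟩ := hcl G k
    (insert s₂ (insert (s₂ * (X * γ)) (FV ∪ G₁.vf k))) (FC ∪ G₁.cf k) hk hkn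
    (le_trans (Nat.mul_le_mul (show K₂ ≤ B by omega)
      (show _ ≤ 30 * A by omega)) (le_trans (by nlinarith) e1'))
    s₂ (s₂ * (X * γ))
    (by
      intro _
      have : (s₂ * (X * γ))⁻¹ * s₂ = (X * γ)⁻¹ := by group
      rw [this]
      exact ⟨X5, fun h => X2 (inv_eq_one.1 h)⟩)
  set l₂ := (s₂ * (X * γ))⁻¹ * t₂ with hl₂
  set G₂ : Gad G := ⟨{(s₂, t₂, τ₂)}, {s₂ * (X * γ)}, {l₂}⟩ with hG₂
  have G₂f : Fresh k (FV ∪ G₁.vf k) (FC ∪ G₁.cf k) G₂ := by
    apply freshIdx d1 hsne2 s4 s3 d2 _ d4 d5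
    intro x hx
    have := d3 x hx
    simp only [mem_insert, not_or] at this
    exact ⟨this.2.2, this.1, this.2.1⟩
  have G₂s : G₂.size = 3 := by simp [hG₂, Gad.size]
  have F₂ := G₁f.add G₂f
  have F₂s : (G₁.add G₂).size = 6 := by rw [Gad.add_size, G₁s, G₂s]
  have v2 : (FV ∪ (G₁.add G₂).vf k).card ≤ FV.card + 18 :=
    (card_union_le _ _).trans (by have := (G₁.add G₂).card_vf_le k; omega)
  have w2 : (FC ∪ (G₁.add G₂).cf k).card ≤ FC.card + 12 :=
    (card_union_le _ _).trans (by have := (G₁.add G₂).card_cf_le k; omega)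
  -- choice of `b`
  have hrδ : 20 * rt (X * h₁) ≤ Fintype.card G :=
    le_trans (Nat.mul_le_mul_right _ (by omega)) X4
  obtain ⟨b, -, b2, b3, b4, b5, b6, b7, b8⟩ := pickq (20 * B) ∅ (FC ∪ (G₁.add G₂).cf k) 1
    (X * h₁) (by simp only [card_empty]; omega)
  -- choice of `y₁`, `y₂`
  obtain ⟨y₁, hy₁⟩ := (few_mem (FV ∪ (G₁.add G₂).vf k) (fun x : G => x) inj_id').ex (by omega)
  obtain ⟨y₂, hy₂⟩ := ((few_mem (FV ∪ (G₁.add G₂).vf k) (fun x : G => x) inj_id').or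
    (few_eq y₁ (fun x : G => x) inj_id')).ex (by omega)
  push Not at hy₂
  set G₃ : Gad G := ⟨0, {y₁, y₂}, {b, b⁻¹ * (X * h₁)}⟩ with hG₃
  have G₃f : Fresh k (FV ∪ (G₁.add G₂).vf k) (FC ∪ (G₁.add G₂).cf k) G₃ := by
    apply freshPlain
    · simp only [Multiset.insert_eq_cons, Multiset.nodup_cons, Multiset.mem_singleton,
        Multiset.nodup_singleton, and_true]
      exact fun h => hy₂.2 h.symm
    · intro x hx
      simp only [Multiset.insert_eq_cons, Multiset.mem_cons, Multiset.mem_singleton] at hx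
      rcases hx with rfl | rfl
      · exact hy₁
      · exact hy₂.1
    · simp only [Multiset.insert_eq_cons, Multiset.nodup_cons, Multiset.mem_singleton,
        Multiset.nodup_singleton, and_true]
      exact b6
    · intro x hx
      simp only [Multiset.insert_eq_cons, Multiset.mem_cons, Multiset.mem_singleton] at hx
      rcases hx with rfl | rfl
      · exact ⟨b2, b4⟩
      · exact ⟨b3, b5⟩
  set D₀ : Gad G := (G₁.add G₂).add G₃ with hD₀
  have D₀f : Fresh k FV FC D₀ := F₂.add G₃f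
  have D₀s : D₀.size = 10 := by
    rw [hD₀, Gad.add_size, F₂s]; simp [hG₃, Gad.size]
  have v0 : (FV ∪ D₀.vf k).card ≤ FV.card + 30 :=
    (card_union_le _ _).trans (by have := D₀.card_vf_le k; omega)
  have c0 : (FC ∪ D₀.cf k).card ≤ FC.card + 20 :=
    (card_union_le _ _).trans (by have := D₀.card_cf_le k; omega)
  have h20 : K₁ ≤ 20 * B := by omega
  obtain ⟨E, E1, E2, E3, E4⟩ := indGen K₁ k {(s₁, t₁, 3), (s₂, t₂, 3)}
    {s₁ * P, s₂ * (X * γ), y₁, y₂} {P, l₂, b, b⁻¹ * (X * h₁)}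
    (fun _ : G => (0 : Multiset G)) (fun c => pr γ c) (FV ∪ D₀.vf k) (FC ∪ D₀.cf k) Z
    (by
      intro FV' FC' hV hC hc c hcZ
      obtain ⟨z1, z2, z3, z4⟩ := hZ c hcZ
      exact hstep G k FV' FC' hk hkn hc γ s₁ s₂ t₁ t₂ P X b y₁ y₂ h₁ rfl
        (hC (mem_union_right _ (by simp [Gad.cf, hD₀, hG₃, Gad.cols])))
        X1 c7 (fun h => s5 h.symm) b4 b5
        (le_trans (Nat.mul_le_mul_right _ h20) b7) (le_trans (Nat.mul_le_mul_right _ h20) b8)
        (le_trans (Nat.mul_le_mul_right _ hK) hγ)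
        (le_trans (Nat.mul_le_mul_right _ h20) c6)
        (le_trans (Nat.mul_le_mul_right _ h20) X3)
        (le_trans (Nat.mul_le_mul_right _ h20) X4) c z1 z2
        (le_trans (Nat.mul_le_mul_right _ hK) z3) (le_trans (Nat.mul_le_mul_right _ hK) z4))
    (by
      refine le_trans ?_ e2
      calc K₁ * (5 * K₁ + 1) * ((FV ∪ D₀.vf k).card + (FC ∪ D₀.cf k).card + Z.card + 1)
          ≤ K₁ * (5 * K₁ + 1) * (1000 * A) := Nat.mul_le_mul_left _ (by omega)
        _ = _ := by ring)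
  refine ⟨D₀.add E, ?_, D₀f.add E2, ?_⟩
  · rw [Gad.add_size, D₀s]
    have : K₁ + 10 ≤ 1000 * B * B * (5 * K₁ + 1) := by
      calc K₁ + 10 ≤ 1000 * B := by omega
        _ ≤ 1000 * B * B := Nat.le_mul_of_pos_right _ (by omega)
        _ ≤ _ := Nat.le_mul_of_pos_right _ (by omega)
    calc 10 + E.size ≤ 10 + K₁ * Z.card := by omega
      _ ≤ (K₁ + 10) * (Z.card + 1) := by nlinarith
      _ ≤ _ := Nat.mul_le_mul_right _ this
  · intro z hz
    have := E4 z hz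
    convert this using 1
    · have i1 : G₁.idx = {(s₁, t₁, 3)} := by simp [hG₁, Gad.idx, sidx]
      have i2 : G₂.idx = {(s₂, t₂, 3)} := by simp [hG₂, Gad.idx, sidx]
      have i3 : G₃.idx = 0 := by simp [hG₃, Gad.idx]
      simp only [Gad.add_idx, hD₀, i1, i2, i3, ← Multiset.singleton_add,
        Multiset.insert_eq_cons]; abel
    · simp only [Gad.add_V, hD₀, hG₁, hG₂, hG₃, ← Multiset.singleton_add,
        Multiset.insert_eq_cons]; abel
    · simp only [Gad.add_C, hD₀, hG₁, hG₂, hG₃, ← Multiset.singleton_add,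
        Multiset.insert_eq_cons]; abel

end Pool.OM.helper39
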