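import Pool.Agent.Work.MP_8d2cba_co_helper39.Common

/-! MP_8d2cba_co block OrV (helper39). -/

set_option autoImplicit false
set_option linter.unusedSectionVars false

namespace Pool.OM.helper39

open Finset

theorem inj_mul_left' {G : Type} [Group G] (a : G) : Function.Injective fun x : G => a * x :=
  mul_right_injective a

theorem inj_id' {G : Type} : Function.Injective fun x : G => x := fun _ _ h => h

theorem inj_inv_mul {G : Type} [Group G] (p : G) : Function.Injective fun x : G => x⁻¹ * p :=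
  fun x y h => by simpa using h

/-- choice of a factorisation `p = q · (q⁻¹ p)` -/
theorem pickq {G : Type} [Group G] [Fintype G] [DecidableEq G] (K : ℕ) (FV FC : Finset G)
    (s p : G) (hn : FV.card + 2 * FC.card + 2 * K + 2 + rt p < Fintype.card G) :
    ∃ q : G, s * q ∉ FV ∧ q ∉ FC ∧ q⁻¹ * p ∉ FC ∧ q ≠ 1 ∧ q⁻¹ * p ≠ 1 ∧ q ≠ q⁻¹ * p ∧
      K * rt q ≤ Fintype.card G ∧ K * rt (q⁻¹ * p) ≤ Fintype.card G := by
  have h := ((((((few_mem FV (fun x => s * x) (inj_mul_left' s)).or
    (few_mem FC (fun x => x) inj_id')).or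
    (few_mem FC (fun x => x⁻¹ * p) (inj_inv_mul p))).or
    (few_eq (1 : G) (fun x => x) inj_id')).or
    (few_eq (1 : G) (fun x => x⁻¹ * p) (inj_inv_mul p))).or
    (((few_sq p (fun x => x) inj_id').or
    (few_bad K (fun x : G => x) inj_id')).or
    (few_bad K (fun x => x⁻¹ * p) (inj_inv_mul p))))
  obtain ⟨q, hq⟩ := h.ex (by omega)
  push Not at hq
  obtain ⟨⟨⟨⟨⟨h1, h2⟩, h3⟩, h4⟩, h5⟩, ⟨h6, h7⟩, h8⟩ := hq
  refine ⟨q, h1, h2, h3, h4, h5, ?_, h7, h8⟩
  intro h
  apply h6
  nth_rewrite 2 [h]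
  group

theorem stepV (hPX : Stmt_PX) (hW : Stmt_W) : ∃ K : ℕ, ∀ (G : Type) [Group G] [Fintype G]
    [DecidableEq G] (k : ℕ) (FV FC : Finset G), 3 ≤ k → k ∣ Fintype.card G - 1 →
    K * (FV.card + FC.card + 1) ≤ Fintype.card G → ∀ s y a : G, s ∈ FV → y ∈ FV → a ∈ FC →
    a ≠ 1 → a⁻¹ * (s⁻¹ * y) ≠ 1 → K * rt a ≤ Fintype.card G →
    K * rt (a⁻¹ * (s⁻¹ * y)) ≤ Fintype.card G → K * rt (s⁻¹ * y) ≤ Fintype.card G →
    ∀ z t : G, ∃ E : Gad G, E.size ≤ K ∧ Fresh k FV FC E ∧ MS E.idx E.V E.C ∧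
      MS ({(s, t, 3)} + E.idx) ({z} + {y} + E.V)
        (0 + {y⁻¹ * t, a, a⁻¹ * (s⁻¹ * y)} + E.C) := by
  obtain ⟨K₁, hPX⟩ := hPX
  obtain ⟨K₂, hW⟩ := hW
  refine ⟨20 * (K₁ + K₂ + 1) * (K₁ + K₂ + 1), ?_⟩
  intro G _ _ _ k FV FC hk hkn hn s y a hs hy ha ha1 hb1 hra hrb hrp z t
  set p := s⁻¹ * y with hp
  set B := K₁ + K₂ + 1 with hB
  have hB1 : 1 ≤ B := by omega
  have hBB : B ≤ B * B := Nat.le_mul_of_pos_left B (by omega)
  have hcast : 20 * B * B * rt p ≤ Fintype.card G := hrp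
  have hn1 : 1 ≤ Fintype.card G := Fintype.card_pos
  -- numeric facts
  have e1 : 20 * B * (FV.card + FC.card + 1) ≤ Fintype.card G := by
    refine le_trans ?_ hn
    rw [show 20 * B * B * (FV.card + FC.card + 1) = B * (20 * B * (FV.card + FC.card + 1)) by ring]
    exact Nat.le_mul_of_pos_left _ (by omega)
  have e2 : 20 * rt p ≤ Fintype.card G := by
    refine le_trans ?_ hcast
    apply Nat.mul_le_mul_right
    nlinarith
  have e3 : K₁ * rt a ≤ Fintype.card G :=
    le_trans (Nat.mul_le_mul_right _ (by nlinarith)) hra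
  have e4 : K₁ * rt (a⁻¹ * p) ≤ Fintype.card G :=
    le_trans (Nat.mul_le_mul_right _ (by nlinarith)) hrb
  obtain ⟨q, q1, q2, q3, q4, q5, q6, q7, q8⟩ := pickq K₁ FV FC s p (by nlinarith)
  -- the base
  set E₀ : Gad G := ⟨0, {s * q}, {q, q⁻¹ * p}⟩ with hE₀
  have hE₀f : Fresh k FV FC E₀ := by
    constructor
    · intro _ i hi; simp [hE₀] at hi
    · simp [hE₀, Gad.verts]
    · intro x hx
      simp only [hE₀, Gad.verts, Multiset.zero_bind, add_zero, Multiset.mem_singleton] at hx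
      rw [hx]; exact q1
    · simp [hE₀, Gad.cols, q6]
    · intro c hc
      simp only [hE₀, Gad.cols, Multiset.zero_bind, add_zero, Multiset.insert_eq_cons,
        Multiset.mem_cons, Multiset.mem_singleton] at hc
      rcases hc with rfl | rfl
      · exact q2
      · exact q3
    · intro c hc
      simp only [hE₀, Gad.cols, Multiset.zero_bind, add_zero, Multiset.insert_eq_cons,
        Multiset.mem_cons, Multiset.mem_singleton] at hc
      rcases hc with rfl | rfl
      · exact q4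
      · exact q5
  have hE₀s : E₀.size = 3 := by simp [hE₀, Gad.size]
  have v0 : (FV ∪ E₀.vf k).card ≤ FV.card + 9 :=
    (card_union_le _ _).trans (by have := E₀.card_vf_le k; omega)
  have c0 : (FC ∪ E₀.cf k).card ≤ FC.card + 6 :=
    (card_union_le _ _).trans (by have := E₀.card_cf_le k; omega)
  have haq : a ≠ q := fun h => q2 (h ▸ ha)
  obtain ⟨P, P1, P2, P3, P4⟩ := hPX G k (FV ∪ E₀.vf k) (FC ∪ E₀.cf k) hk hkn
    (by
      refine le_trans ?_ e1
      calc K₁ * ((FV ∪ E₀.vf k).card + (FC ∪ E₀.cf k).card + 1)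
          ≤ B * (FV.card + 9 + (FC.card + 6) + 1) := Nat.mul_le_mul (by omega) (by omega)
        _ ≤ _ := by nlinarith [Nat.zero_le (B * FV.card), Nat.zero_le (B * FC.card)])
    a (a⁻¹ * p) q (q⁻¹ * p) (by group) haq ha1 hb1 q4 q5 e3 e4 q7 q8
  have hE₁f : Fresh k FV FC (E₀.add P) := hE₀f.add P2
  have hE₁s : (E₀.add P).size ≤ 3 + K₁ := by rw [Gad.add_size, hE₀s]; omega
  have v1 : (FV ∪ (E₀.add P).vf k).card ≤ FV.card + 3 * (3 + K₁) :=
    (card_union_le _ _).trans (by have := (E₀.add P).card_vf_le k; omega)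
  have c1 : (FC ∪ (E₀.add P).cf k).card ≤ FC.card + 2 * (3 + K₁) :=
    (card_union_le _ _).trans (by have := (E₀.add P).card_cf_le k; omega)
  obtain ⟨W, W1, W2, W3, W4⟩ := hW G k (FV ∪ (E₀.add P).vf k) (FC ∪ (E₀.add P).cf k) hk hkn
    (by
      refine le_trans ?_ hn
      calc K₂ * ((FV ∪ (E₀.add P).vf k).card + (FC ∪ (E₀.add P).cf k).card + 1)
          ≤ B * (FV.card + 3 * (3 + K₁) + (FC.card + 2 * (3 + K₁)) + 1) :=
            Nat.mul_le_mul (by omega) (by omega)
        _ ≤ B * (20 * B * (FV.card + FC.card + 1)) := by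
            apply Nat.mul_le_mul_left
            nlinarith [Nat.zero_le (B * FV.card), Nat.zero_le (B * FC.card)]
        _ = _ := by ring)
    z (s * q)
  refine ⟨(E₀.add P).add W, ?_, hE₁f.add W2, ?_, ?_⟩
  · rw [Gad.add_size]
    nlinarith
  · have := P4.add W4
    convert this using 1
    · simp [hE₀, Gad.idx]
    · simp only [Gad.add_V, hE₀, ← Multiset.singleton_add]; abel
    · simp only [Gad.add_C, hE₀, ← Multiset.singleton_add, Multiset.insert_eq_cons]; abel
  · have h3 := MS.three s t (s * q) y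
    have e5 : s⁻¹ * (s * q) = q := by group
    have e6 : (s * q)⁻¹ * y = q⁻¹ * p := by rw [hp]; group
    rw [e5, e6] at h3
    have := (h3.add P3).add W3
    convert this using 1
    · have e7 : E₀.idx = 0 := by simp [hE₀, Gad.idx]
      simp only [Gad.add_idx, e7]; abel
    · simp only [Gad.add_V, hE₀, ← Multiset.singleton_add, Multiset.insert_eq_cons]; abel
    · simp only [Gad.add_C, hE₀, ← Multiset.singleton_add, Multiset.insert_eq_cons]; abel

theorem stmt_OrV (hPX : Stmt_PX) (hW : Stmt_W) (hCL : Stmt_CLOSE) : Stmt_OrV := by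
  obtain ⟨K₁, hstep⟩ := stepV hPX hW
  obtain ⟨K₂, hcl⟩ := closeOne hCL
  refine ⟨100 * (K₁ + K₂ + 1) * (5 * K₁ + 1) + 100 * (K₁ + K₂ + 1), ?_⟩
  intro G _ _ _ k FV FC Z hk hkn hn
  set B := K₁ + K₂ + 1 with hB
  have hB1 : 1 ≤ B := by omega
  set A := FV.card + FC.card + Z.card + 1 with hA
  have e1 : 100 * B * A ≤ Fintype.card G := by
    refine le_trans ?_ hn
    apply Nat.mul_le_mul_right
    omega
  have e2 : 100 * (K₁ * (5 * K₁ + 1) * A) ≤ Fintype.card G := by
    refine le_trans ?_ hn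
    have : 100 * (K₁ * (5 * K₁ + 1) * A) = 100 * K₁ * (5 * K₁ + 1) * A := by ring
    rw [this]
    apply Nat.mul_le_mul_right
    have : 100 * K₁ * (5 * K₁ + 1) ≤ 100 * B * (5 * K₁ + 1) :=
      Nat.mul_le_mul_right _ (by omega)
    omega
  have eB : 100 * B ≤ Fintype.card G := le_trans (by nlinarith) e1
  have eA : 100 * A ≤ Fintype.card G := le_trans (by nlinarith) e1
  -- choice of `p`
  obtain ⟨p, hp⟩ := (((few_eq (1 : G) (fun x => x) inj_id').or
    (few_mem FC (fun x : G => x⁻¹) inv_injective)).or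
    (few_bad (20 * B) (fun x : G => x) inj_id')).ex (by omega)
  push Not at hp
  obtain ⟨⟨p1, p2⟩, p3⟩ := hp
  have p3' : K₁ * rt p ≤ Fintype.card G := le_trans (Nat.mul_le_mul_right _ (by omega)) p3
  have p4 : 20 * rt p ≤ Fintype.card G := le_trans (Nat.mul_le_mul_right _ (by omega)) p3
  -- choice of `s`
  obtain ⟨s, hs⟩ := ((few_mem FV (fun x : G => x) inj_id').or
    (few_mem FV (fun x : G => x * p) (mul_left_injective p))).ex (by omega)
  push Not at hs
  obtain ⟨s1, s2⟩ := hs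
  -- choice of `a`
  obtain ⟨a, -, a2, a3, a4, a5, a6, a7, a8⟩ := pickq K₁ ∅ (insert p⁻¹ FC) s p
    (by
      have : (insert p⁻¹ FC).card ≤ FC.card + 1 := card_insert_le _ _
      simp only [card_empty]
      omega)
  have hsy : s⁻¹ * (s * p) = p := by group
  obtain ⟨t, τ, t1, t2, t3, t4, t5⟩ := hcl G k (insert s (insert (s * p) FV))
    (insert a (insert (a⁻¹ * p) FC)) hk hkn
    (by
      have h1 : (insert s (insert (s * p) FV)).card ≤ FV.card + 2 :=
        (card_insert_le _ _).trans (Nat.add_le_add_right (card_insert_le _ _) 1)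
      have h2 : (insert a (insert (a⁻¹ * p) FC)).card ≤ FC.card + 2 :=
        (card_insert_le _ _).trans (Nat.add_le_add_right (card_insert_le _ _) 1)
      refine le_trans (Nat.mul_le_mul (show K₂ ≤ B by omega)
        (show _ ≤ 5 * A by omega)) (le_trans (by nlinarith) e1))
    s (s * p)
    (by
      intro _
      have : (s * p)⁻¹ * s = p⁻¹ := by group
      rw [this]
      refine ⟨?_, by simpa using p1⟩
      simp only [mem_insert, not_or] at a2 a3 ⊢
      exact ⟨fun h => a2.1 h.symm, fun h => a3.1 h.symm, p2⟩)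
  set y := s * p with hy
  set D₀ : Gad G := ⟨{(s, t, τ)}, {y}, {y⁻¹ * t, a, a⁻¹ * p}⟩ with hD₀
  have hD₀f : Fresh k FV FC D₀ := by
    constructor
    · intro h3 i hi
      simp only [hD₀, Multiset.mem_singleton] at hi
      rw [hi]; exact t1 h3
    · simp only [hD₀, Gad.verts, Multiset.singleton_bind, jl_eq]
      rw [Multiset.singleton_add, Multiset.nodup_cons, Multiset.nodup_cons, Multiset.mem_cons,
        not_or]
      refine ⟨⟨?_, ?_⟩, ?_, t2⟩
      · intro h; apply p1
        rw [hy] at h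
        simpa using h
      · intro h; exact t3 _ h (by simp)
      · intro h; exact t3 _ h (by simp)
    · intro x hx
      simp only [hD₀, Gad.verts, Multiset.singleton_bind, jl_eq, Multiset.mem_add,
        Multiset.mem_singleton, Multiset.mem_cons] at hx
      rcases hx with rfl | rfl | hx
      · exact s2
      · exact s1
      · intro h; exact t3 _ hx (by simp [h])
    · simp only [hD₀, Gad.cols, Multiset.singleton_bind]
      have : ({y⁻¹ * t, a, a⁻¹ * p} + tl k (s, t, τ) : Multiset G) =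
          a ::ₘ (a⁻¹ * p) ::ₘ ((y⁻¹ * t) ::ₘ tl k (s, t, τ)) := by
        simp only [Multiset.insert_eq_cons, ← Multiset.singleton_add]; abel
      rw [this, Multiset.nodup_cons, Multiset.nodup_cons, Multiset.mem_cons, not_or]
      refine ⟨⟨a6, ?_⟩, ?_, t4⟩
      · intro h; exact (t5 _ h).1 (by simp)
      · intro h; exact (t5 _ h).1 (by simp)
    · intro c hc
      simp only [hD₀, Gad.cols, Multiset.singleton_bind] at hc
      have : ({y⁻¹ * t, a, a⁻¹ * p} + tl k (s, t, τ) : Multiset G) =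
          a ::ₘ (a⁻¹ * p) ::ₘ ((y⁻¹ * t) ::ₘ tl k (s, t, τ)) := by
        simp only [Multiset.insert_eq_cons, ← Multiset.singleton_add]; abel
      rw [this, Multiset.mem_cons, Multiset.mem_cons] at hc
      rcases hc with rfl | rfl | hc
      · intro h; exact a2 (by simp [h])
      · intro h; exact a3 (by simp [h])
      · intro h; exact (t5 _ hc).1 (by simp [h])
    · intro c hc
      simp only [hD₀, Gad.cols, Multiset.singleton_bind] at hc
      have : ({y⁻¹ * t, a, a⁻¹ * p} + tl k (s, t, τ) : Multiset G) =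
          a ::ₘ (a⁻¹ * p) ::ₘ ((y⁻¹ * t) ::ₘ tl k (s, t, τ)) := by
        simp only [Multiset.insert_eq_cons, ← Multiset.singleton_add]; abel
      rw [this, Multiset.mem_cons, Multiset.mem_cons] at hc
      rcases hc with rfl | rfl | hc
      · exact a4
      · exact a5
      · exact (t5 _ hc).2
  have hD₀s : D₀.size = 5 := by simp [hD₀, Gad.size]
  have v0 : (FV ∪ D₀.vf k).card ≤ FV.card + 15 :=
    (card_union_le _ _).trans (by have := D₀.card_vf_le k; omega)
  have c0 : (FC ∪ D₀.cf k).card ≤ FC.card + 10 :=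
    (card_union_le _ _).trans (by have := D₀.card_cf_le k; omega)
  obtain ⟨E, E1, E2, E3, E4⟩ := indGen K₁ k {(s, t, 3)} {y} {y⁻¹ * t, a, a⁻¹ * p}
    (fun z : G => ({z} : Multiset G)) (fun _ => 0) (FV ∪ D₀.vf k) (FC ∪ D₀.cf k) Z
    (by
      intro FV' FC' hV hC hc z _
      have := hstep G k FV' FC' hk hkn hc s y a
        (hV (mem_union_right _ (by simp [Gad.vf, hD₀, Gad.verts, jl_eq])))
        (hV (mem_union_right _ (by simp [Gad.vf, hD₀, Gad.verts, jl_eq])))
        (hC (mem_union_right _ (by simp [Gad.cf, hD₀, Gad.cols]))) a4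
        (by rw [hsy]; exact a5) a7 (by rw [hsy]; exact a8) (by rw [hsy]; exact p3') z t
      rw [hsy] at this
      exact this)
    (by
      refine le_trans ?_ e2
      calc K₁ * (5 * K₁ + 1) * ((FV ∪ D₀.vf k).card + (FC ∪ D₀.cf k).card + Z.card + 1)
          ≤ K₁ * (5 * K₁ + 1) * (100 * A) := Nat.mul_le_mul_left _ (by omega)
        _ = _ := by ring)
  refine ⟨D₀.add E, ?_, hD₀f.add E2, ?_⟩
  · rw [Gad.add_size, hD₀s]
    have : 100 * B * (5 * K₁ + 1) + 100 * B ≥ K₁ + 5 := by nlinarith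
    calc 5 + E.size ≤ 5 + K₁ * Z.card := by omega
      _ ≤ (K₁ + 5) * (Z.card + 1) := by nlinarith
      _ ≤ _ := Nat.mul_le_mul_right _ this
  · intro z hz
    have := E4 z hz
    convert this using 1
    · simp [Gad.idx, hD₀, sidx]
    · simp only [Gad.add_V, hD₀, ← Multiset.singleton_add]; abel
    · simp only [Gad.add_C, hD₀, zero_add]

end Pool.OM.helper39
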