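import Pool.Agent.Work.MP_8d2cba_co_h18.Basic

/-! MP_8d2cba_co (helper39): common tools for OrV, OrP, ABS. -/

set_option autoImplicit false
set_option linter.unusedSectionVars false

namespace Pool.OM.helper39

open Finset

section few
variable {G : Type}

/-- at most `N` elements satisfy `p` -/
def Few (N : ℕ) (p : G → Prop) : Prop := ∃ S : Finset G, S.card ≤ N ∧ ∀ x, p x → x ∈ S

theorem Few.mono {N M : ℕ} {p q : G → Prop} (h : Few N p) (hN : N ≤ M) (hp : ∀ x, q x → p x) :
    Few M q := by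
  obtain ⟨S, hS, h⟩ := h
  exact ⟨S, hS.trans hN, fun x hx => h x (hp x hx)⟩

theorem Few.or [DecidableEq G] {N M : ℕ} {p q : G → Prop} (h : Few N p) (h' : Few M q) :
    Few (N + M) (fun x => p x ∨ q x) := by
  obtain ⟨S, hS, h⟩ := h
  obtain ⟨T, hT, h'⟩ := h'
  refine ⟨S ∪ T, (card_union_le _ _).trans (by omega), ?_⟩
  rintro x (hx | hx)
  · exact mem_union_left _ (h x hx)
  · exact mem_union_right _ (h' x hx)

theorem Few.ex [Fintype G] {N : ℕ} {p : G → Prop} (h : Few N p) (hN : N < Fintype.card G) :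
    ∃ x, ¬ p x := by
  obtain ⟨S, hS, h⟩ := h
  by_contra hcon
  push Not at hcon
  have : (univ : Finset G) ⊆ S := fun x _ => h x (hcon x)
  have := card_le_card this
  rw [card_univ] at this
  omega

theorem few_mem [Fintype G] [DecidableEq G] (S : Finset G) (f : G → G)
    (hf : Function.Injective f) : Few S.card (fun x => f x ∈ S) :=
  ⟨univ.filter fun x => f x ∈ S, card_le_card_of_injOn f (fun x hx => by simpa using hx)
    (fun _ _ _ _ h => hf h), fun x hx => by simpa using hx⟩

theorem few_eq [Fintype G] [DecidableEq G] (c : G) (f : G → G)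
    (hf : Function.Injective f) : Few 1 (fun x => f x = c) :=
  (few_mem {c} f hf).mono (by simp) (fun x hx => by simpa using hx)

variable [Group G] [Fintype G] [DecidableEq G]

theorem few_sq (c : G) (f : G → G) (hf : Function.Injective f) :
    Few (rt c) (fun x => f x * f x = c) :=
  (few_mem (univ.filter fun x : G => x * x = c) f hf).mono le_rfl (fun x hx => by simpa using hx)

theorem few_bad (K : ℕ) (f : G → G) (hf : Function.Injective f) :
    Few K (fun x => Fintype.card G < K * rt (f x)) :=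
  (few_mem (univ.filter fun c : G => Fintype.card G < K * rt c) f hf).mono (card_badrt K)
    (fun x hx => by simpa using hx)

end few

section ind
variable {G : Type} [Group G] [Fintype G] [DecidableEq G]

theorem vf_add (k : ℕ) (D E : Gad G) : (D.add E).vf k = D.vf k ∪ E.vf k := by
  simp [Gad.vf, Gad.add_verts]

theorem cf_add (k : ℕ) (D E : Gad G) : (D.add E).cf k = D.cf k ∪ E.cf k := by
  simp [Gad.cf, Gad.add_cols]

/-- greedy induction -/
theorem indGen {ι : Type} [DecidableEq ι] (K₁ k : ℕ) (J₀ : Multiset (Idx G))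
    (V₀ C₀ : Multiset G) (ev' ec : ι → Multiset G) (FV FC : Finset G) (Z : Finset ι)
    (hstep : ∀ FV' FC' : Finset G, FV ⊆ FV' → FC ⊆ FC' →
      K₁ * (FV'.card + FC'.card + 1) ≤ Fintype.card G → ∀ z ∈ Z, ∃ E : Gad G, E.size ≤ K₁ ∧
        Fresh k FV' FC' E ∧ MS E.idx E.V E.C ∧
        MS (J₀ + E.idx) (ev' z + V₀ + E.V) (ec z + C₀ + E.C))
    (hn : K₁ * (5 * K₁ + 1) * (FV.card + FC.card + Z.card + 1) ≤ Fintype.card G) :
    ∃ E : Gad G, E.size ≤ K₁ * Z.card ∧ Fresh k FV FC E ∧ MS E.idx E.V E.C ∧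
      ∀ z ∈ Z, MS (J₀ + E.idx) (ev' z + V₀ + E.V) (ec z + C₀ + E.C) := by
  classical
  suffices H : ∀ Y : Finset ι, Y ⊆ Z → ∃ E : Gad G, E.size ≤ K₁ * Y.card ∧ Fresh k FV FC E ∧
      MS E.idx E.V E.C ∧ ∀ z ∈ Y, MS (J₀ + E.idx) (ev' z + V₀ + E.V) (ec z + C₀ + E.C) from
    H Z (Finset.Subset.refl _)
  intro Y
  induction Y using Finset.induction_on with
  | empty =>
    intro _
    refine ⟨Gad.zero, by simp [Gad.zero, Gad.size], Fresh.zero k FV FC, ?_, by simp⟩
    simpa [Gad.zero, Gad.idx] using (MS.zero : MS (0 : Multiset (Idx G)) 0 0)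
  | insert z Y hz ih =>
    intro hY
    obtain ⟨E, hs, hf, hB, hA⟩ := ih (fun x hx => hY (mem_insert_of_mem hx))
    have hYc : Y.card + 1 ≤ Z.card := by
      have := card_le_card hY
      rwa [card_insert_of_notMem hz] at this
    have h1 : (E.vf k).card ≤ 3 * (K₁ * Y.card) := (E.card_vf_le k).trans (by omega)
    have h2 : (E.cf k).card ≤ 2 * (K₁ * Y.card) := (E.card_cf_le k).trans (by omega)
    have h3 : (FV ∪ E.vf k).card ≤ FV.card + 3 * (K₁ * Y.card) :=
      (card_union_le _ _).trans (by omega)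
    have h4 : (FC ∪ E.cf k).card ≤ FC.card + 2 * (K₁ * Y.card) :=
      (card_union_le _ _).trans (by omega)
    have h5 : K₁ * ((FV ∪ E.vf k).card + (FC ∪ E.cf k).card + 1) ≤ Fintype.card G := by
      refine le_trans ?_ hn
      rw [mul_assoc]
      apply Nat.mul_le_mul_left
      nlinarith [Nat.zero_le (K₁ * FV.card), Nat.zero_le (K₁ * FC.card), Nat.zero_le K₁,
        Nat.mul_le_mul_left K₁ hYc]
    obtain ⟨E', hs', hf', hB', hA'⟩ := hstep _ _ (subset_union_left) (subset_union_left) h5 z
      (hY (mem_insert_self _ _))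
    refine ⟨E.add E', ?_, hf.add hf', ?_, ?_⟩
    · rw [Gad.add_size, card_insert_of_notMem hz, mul_add]; omega
    · simpa using hB.add hB'
    · intro x hx
      rcases mem_insert.1 hx with rfl | hx
      · have := hB.add hA'
        convert this using 1
        · simp only [Gad.add_idx]; abel
        · simp only [Gad.add_V]; abel
        · simp only [Gad.add_C]; abel
      · have := (hA x hx).add hB'
        convert this using 1
        · simp only [Gad.add_idx]; abel
        · simp only [Gad.add_V]; abel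
        · simp only [Gad.add_C]; abel

end ind

section close
variable {G : Type} [Group G]

/-- junctions of a special index apart from the source -/
def jl' (k : ℕ) (t τ : G) : Multiset G :=
  if k = 3 then 0 else if k = 5 then {t, τ} else {t}

theorem jl_eq (k : ℕ) (s t τ : G) : jl k (s, t, τ) = s ::ₘ jl' k t τ := by
  unfold jl jl'; split_ifs <;> simp

theorem card_jl'_le (k : ℕ) (t τ : G) : Multiset.card (jl' k t τ) ≤ 2 := by
  unfold jl'; split_ifs <;> simp

end close

/-- CLOSE for one special index, all k ≥ 3 -/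
theorem closeOne (hCL : Stmt_CLOSE) : ∃ K : ℕ, ∀ (G : Type) [Group G] [Fintype G]
    [DecidableEq G] (k : ℕ) (FV FC : Finset G), 3 ≤ k → k ∣ Fintype.card G - 1 →
    K * (FV.card + FC.card + 1) ≤ Fintype.card G → ∀ s y : G,
    (k = 3 → y⁻¹ * s ∉ FC ∧ y⁻¹ * s ≠ 1) → ∃ t τ : G, (k = 3 → t = s) ∧
      (jl' k t τ).Nodup ∧ (∀ x ∈ jl' k t τ, x ∉ FV) ∧
      ((y⁻¹ * t) ::ₘ tl k (s, t, τ)).Nodup ∧
      ∀ c ∈ (y⁻¹ * t) ::ₘ tl k (s, t, τ), c ∉ FC ∧ c ≠ 1 := by
  obtain ⟨K, hK⟩ := hCL
  refine ⟨K * 2, ?_⟩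
  intro G _ _ _ k FV FC hk hkn hn s y h3
  by_cases hk3 : k = 3
  · subst hk3
    refine ⟨s, s, fun _ => rfl, by simp [jl'], by simp [jl'], by simp [tl], ?_⟩
    intro c hc
    have : c = y⁻¹ * s := by simpa [tl] using hc
    subst this
    exact h3 rfl
  · obtain ⟨t, τ, h1, h2, h4, h5⟩ := hK G k FV FC (by omega) hkn 1 (fun _ => s) (fun _ => y)
      (le_trans (by nlinarith [Nat.zero_le (K * FV.card), Nat.zero_le (K * FC.card)]) hn)
    refine ⟨t 0, τ 0, fun h => absurd h hk3, ?_, ?_, ?_, ?_⟩
    · have : (univ : Finset (Fin 1)).val = {0} := rfl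
      rw [this] at h1
      simpa [jl', hk3] using h1
    · intro x hx
      unfold jl' at hx
      rw [if_neg hk3] at hx
      split_ifs at hx
      · simp only [Multiset.insert_eq_cons, Multiset.mem_cons, Multiset.mem_singleton] at hx
        rcases hx with rfl | rfl
        · exact (h2 0).1
        · exact (h2 0).2
      · rw [Multiset.mem_singleton] at hx
        rw [hx]; exact (h2 0).1
    · have : (univ : Finset (Fin 1)).val = {0} := rfl
      rw [this] at h4
      simpa using h4
    · exact h5 0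

end Pool.OM.helper39
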